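import Pool.Agent.H91.DiamCap

set_option autoImplicit false

open Filter Topology Metric H91.DiamCap in
theorem Pool.Agent.Results.MP_d057eb_an.Ratio.result :
    ∀ K : Set ℂ, IsCompact K → K.Nonempty →
    Tendsto (fun n : ℕ => delta n (cthickening (1 / n) K) / cap (cthickening (1 / n) K))
      atTop (𝓝 1) :=
  main
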